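import Pool.Agent.V11120.Thr.Euler
import Pool.Agent.TH482.HT.Defs

/-!
# The thrackle genus is at most linear in the number of edges
-/

set_option autoImplicit false
set_option linter.unusedVariables false

namespace Pool.Agent.Results.MP_3f6a1f_co.LinearBound

open TH482.HT

/-- The crossings of the edge `uv` with the edge `u'v'`, each recorded by the piece of the
directed edge `(u, v)` that leaves the crossing. -/
def crossings {V : Type} {G : SimpleGraph V} (𝒟 : Drawing G) (u v u' v' : V) : Set 𝒟.D :=
  {d | 0 < 𝒟.pos d ∧ 𝒟.src d = u ∧ 𝒟.tgt d = v ∧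
    ((𝒟.src (𝒟.rot d) = u' ∧ 𝒟.tgt (𝒟.rot d) = v') ∨
      (𝒟.src (𝒟.rot d) = v' ∧ 𝒟.tgt (𝒟.rot d) = u'))}

/-- A drawing is a thrackle if any two edges without a common vertex cross exactly once, and two
edges with a common vertex do not cross (nor does an edge cross itself). -/
structure IsThrackle {V : Type} {G : SimpleGraph V} (𝒟 : Drawing G) : Prop where
  once : ∀ u v u' v', G.Adj u v → G.Adj u' v' → Indep u v u' v' →
    (crossings 𝒟 u v u' v').ncard = 1
  none : ∀ u v u' v', G.Adj u v → G.Adj u' v' → ¬ Indep u v u' v' → crossings 𝒟 u v u' v' = ∅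

/-- `G` can be thrackled on the closed orientable surface of genus `g`: it has no edges, or it has
a thrackle drawing that fits on this surface.  (Isolated vertices can be placed anywhere, and the
union of the edges of a thrackle is connected.) -/
def CanBeThrackledOn {V : Type} (G : SimpleGraph V) (g : ℕ) : Prop :=
  G = ⊥ ∨ ∃ 𝒟 : Drawing G, IsThrackle 𝒟 ∧ 𝒟.OnSurface g

/-- The thrackle genus (infinite if there were no thrackle drawing at all). -/
noncomputable def thrackleGenus {V : Type} (G : SimpleGraph V) : ℕ∞ :=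
  ⨅ g ∈ {g : ℕ | CanBeThrackledOn G g}, (g : ℕ∞)

namespace Proof

open Pool.Agent.V11120.Thr

variable {V : Type} [Fintype V] [LinearOrder V] {G : SimpleGraph V}

omit [Fintype V] in
theorem indep_iff (p q : Ed G × Bool) :
    Indep (st p) (st (p.1, !p.2)) (st q) (st (q.1, !q.2)) ↔ Ind p.1 q.1 := by
  obtain ⟨e, s | s⟩ := p <;> obtain ⟨f, t | t⟩ := q <;>
    simp only [st, cond_true, cond_false, Bool.not_true, Bool.not_false, Indep, Ind] <;> tauto

theorem isThrackle : IsThrackle (drawing (G := G)) where
  once := by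
    intro u v u' v' h h' hi
    obtain ⟨p, hp1, hp2⟩ := exists_dir h
    obtain ⟨q, hq1, hq2⟩ := exists_dir h'
    have hind : Ind p.1 q.1 := by
      rw [← indep_iff, hp1, hp2, hq1, hq2]
      exact hi
    rw [Set.ncard_eq_one]
    refine ⟨(⟨p.1, p.2, some ⟨q.1, hind⟩⟩ : Dt G), ?_⟩
    ext d
    constructor
    · rintro ⟨h1, h2, h3, h4⟩
      have h1' : 0 < ps d := h1
      obtain ⟨f, hf⟩ := exists_some_of_ps h1'
      have h5 : (d.e, d.s) = p := st_inj (p := (d.e, d.s)) (h2.trans hp1.symm) (h3.trans hp2.symm)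
      have h6 : (rt d).e = q.1 := by
        rcases h4 with ⟨h7, h8⟩ | ⟨h7, h8⟩
        · have := st_inj (p := ((rt d).e, (rt d).s)) (q := q) (h7.trans hq1.symm)
            (h8.trans hq2.symm)
          rw [← this]
        · have := st_inj (p := ((rt d).e, (rt d).s)) (q := (q.1, !q.2)) (h7.trans hq2.symm) (by
            rw [Bool.not_not]
            exact h8.trans hq1.symm)
          rw [Prod.ext_iff] at this
          exact this.1
      rw [hf, rt_some] at h6
      simp only at h6
      have h7 : d.e = p.1 := by rw [← h5]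
      have h8 : d.s = p.2 := by rw [← h5]
      rw [Set.mem_singleton_iff]
      clear h4 h1 h2 h3 h1'
      obtain ⟨de, ds, dx⟩ := d
      simp only at h7 h8 h6 f
      subst h7 h8
      have h9 : f = ⟨q.1, hind⟩ := Subtype.ext h6
      rw [hf, h9]
    · intro hd
      rw [Set.mem_singleton_iff] at hd
      subst hd
      refine ⟨ps_some_pos _ _ _, hp1, hp2, ?_⟩
      show (sr (rt _) = u' ∧ tg (rt _) = v') ∨ (sr (rt _) = v' ∧ tg (rt _) = u')
      rw [rt_some]
      generalize xor p.2 (decide (q.1.r < p.1.r)) = b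
      by_cases hb : b = q.2
      · left
        subst hb
        exact ⟨hq1, hq2⟩
      · right
        have hb' : b = !q.2 := by
          cases b <;> cases hq : q.2 <;> simp_all
        subst hb'
        refine ⟨hq2, ?_⟩
        show st (q.1, !!q.2) = u'
        rw [Bool.not_not]
        exact hq1
  none := by
    intro u v u' v' h h' hi
    obtain ⟨p, hp1, hp2⟩ := exists_dir h
    obtain ⟨q, hq1, hq2⟩ := exists_dir h'
    rw [Set.eq_empty_iff_forall_notMem]
    rintro d ⟨h1, h2, h3, h4⟩
    have h1' : 0 < ps d := h1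
    obtain ⟨f, hf⟩ := exists_some_of_ps h1'
    have h5 : (d.e, d.s) = p := st_inj (p := (d.e, d.s)) (h2.trans hp1.symm) (h3.trans hp2.symm)
    have h6 : (rt d).e = q.1 := by
      rcases h4 with ⟨h7, h8⟩ | ⟨h7, h8⟩
      · have := st_inj (p := ((rt d).e, (rt d).s)) (q := q) (h7.trans hq1.symm)
          (h8.trans hq2.symm)
        rw [← this]
      · have := st_inj (p := ((rt d).e, (rt d).s)) (q := (q.1, !q.2)) (h7.trans hq2.symm) (by
          rw [Bool.not_not]
          exact h8.trans hq1.symm)
        rw [Prod.ext_iff] at this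
        exact this.1
    rw [hf, rt_some] at h6
    simp only at h6
    apply hi
    rw [← hp1, ← hp2, ← hq1, ← hq2, indep_iff, ← h6, ← h5]
    exact f.2

theorem mm_le : mm G ≤ G.edgeSet.ncard := by
  classical
  haveI : Finite G.edgeSet := inferInstance
  rw [mm, ← Nat.card_eq_fintype_card, ← Nat.card_coe_set_eq]
  refine Nat.card_le_card_of_injective (fun e : Ed G => (⟨s(e.l, e.r), e.adj⟩ : G.edgeSet)) ?_
  intro e f hef
  have h1 : s(e.l, e.r) = s(f.l, f.r) := congrArg Subtype.val hef
  rw [Sym2.eq_iff] at h1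
  rcases h1 with ⟨h2, h3⟩ | ⟨h2, h3⟩
  · exact Ed.ext h2 h3
  · have a1 := e.lt; have a2 := f.lt
    rw [h2, h3] at a1
    exact absurd a1 a2.not_gt

theorem can : CanBeThrackledOn G (21 * G.edgeSet.ncard) := by
  by_cases h0 : 0 < mm G
  · right
    refine ⟨drawing, isThrackle, ?_⟩
    have h1 := euler_ge h0
    have h2 := mm_le (G := G)
    unfold SurfaceMap.OnSurface
    refine le_trans ?_ h1
    push_cast
    omega
  · left
    rw [eq_bot_iff]
    intro u v huv
    exfalso
    apply h0
    obtain ⟨p, _⟩ := exists_dir huv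
    exact Fintype.card_pos_iff.2 ⟨p.1⟩

end Proof

/-- **The thrackle genus is linear in the number of edges.** Every finite graph `G` with `m` edges
satisfies `tg(G) ≤ 21 m`. -/
theorem result (V : Type) [Finite V] (G : SimpleGraph V) :
    thrackleGenus G ≤ ((21 * G.edgeSet.ncard : ℕ) : ℕ∞) := by
  haveI : Fintype V := Fintype.ofFinite V
  letI : LinearOrder V := LinearOrder.lift' (Fintype.equivFin V) (Fintype.equivFin V).injective
  exact iInf₂_le (21 * G.edgeSet.ncard) Proof.can

end Pool.Agent.Results.MP_3f6a1f_co.LinearBound
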